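import Mathlib
import Pool.Agent.H.MP_f3871b_nt.Main

namespace Pool.Agent.Results.MP_f3871b_nt.Full

open Finset PowerSeries

def IsExpansion (n : ℕ → ℤ) : Prop :=
  ∀ m : ℕ, coeff m (∏ i ∈ range m, (1 + C (n (i + 1)) * X ^ (i + 1) : ℤ⟦X⟧))
    = (Fintype.card (Nat.Partition m) : ℤ)

theorem result : (∃ n, IsExpansion n) ∧ ∀ n, IsExpansion n → ∀ k : ℕ, 1 ≤ k →
    n (8 * k + 2) < 0 ∧ n (8 * k + 4) < 0 ∧ n (8 * k + 6) < 0 ∧ 0 < n (8 * k) := by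
  have e : ∀ n, IsExpansion n ↔ ∀ m, coeff m (Pool.Agent.H.MP_f3871b_nt.F n m)
      = coeff m Pool.Agent.H.MP_f3871b_nt.P := by
    intro n
    simp only [IsExpansion, Pool.Agent.H.MP_f3871b_nt.F, Pool.Agent.H.MP_f3871b_nt.P, coeff_mk]
  refine ⟨Pool.Agent.H.MP_f3871b_nt.exists_seq.imp fun n hn => (e n).2 hn, fun n hn k hk => ?_⟩
  have h : Pool.Agent.H.MP_f3871b_nt.Rc n := Pool.Agent.H.MP_f3871b_nt.recur n ((e n).1 hn)
  have m := fun j hj => Pool.Agent.H.MP_f3871b_nt.main h j hj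
  refine ⟨?_, ?_, ?_, ?_⟩
  · rw [show 8 * k + 2 = 2 * (4 * k + 1) by ring]; exact (m _ (by omega)).2 (by omega)
  · rw [show 8 * k + 4 = 2 * (4 * k + 2) by ring]; exact (m _ (by omega)).2 (by omega)
  · rw [show 8 * k + 6 = 2 * (4 * k + 3) by ring]; exact (m _ (by omega)).2 (by omega)
  · rw [show 8 * k = 2 * (4 * k) by ring]; exact (m _ (by omega)).1 (by omega)

end Pool.Agent.Results.MP_f3871b_nt.Full
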